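import Pool.Agent.H19.Kom.BV
import Pool.Agent.H19.Kom.Box

/-!
The Komlós conjecture for vectors in `ℝ^(ℤ^m)`, `m ≥ 2`, which are sums of a function of total
variation at most `1` and a convex combination of normalised indicator functions of boxes.
-/

set_option autoImplicit false

namespace Pool.Agent.Results.MP_c81d26_co.BoundedVariation

open Finset
open scoped ENNReal

/-- finitely supported functions on `ℤ^m` of (anisotropic, discrete) total variation at most `1` -/
def BVBall (m : ℕ) : Set ((Fin m → ℤ) → ℝ) :=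
  {a | (Function.support a).Finite ∧
    ∑' x : Fin m → ℤ, ∑ i : Fin m, |a (x + Pi.single i 1) - a x| ≤ 1}

/-- the absolutely convex hull of the functions `1_B / √|B|`, where `B` is a box
`∏_i [l_i, u_i]` of `ℤ^m` -/
def BoxBall (m : ℕ) : Set ((Fin m → ℤ) → ℝ) :=
  {b | ∃ (N : ℕ) (l u : Fin N → Fin m → ℤ) (c : Fin N → ℝ),
    (∀ x, b x = ∑ t, c t * (if x ∈ Finset.Icc (l t) (u t) then 1 else 0)) ∧
    ∑ t, |c t| * Real.sqrt ((Finset.Icc (l t) (u t)).card : ℝ) ≤ 1}

open Pool.Agent.H19.Kom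

lemma rep_bv {m : ℕ} (hm : 2 ≤ m) {a : (Fin m → ℤ) → ℝ} (ha : a ∈ BVBall m) :
    Rep a (ENNReal.ofReal 6) := by
  obtain ⟨h1, h2⟩ := ha
  apply Rep.bv hm h1
  have hs : ∀ i : Fin m, Summable (fun x : Fin m → ℤ => |a (x + Pi.single i 1) - a x|) := by
    intro i
    apply summ
    apply (h1.union (h1.preimage (add_left_injective (Pi.single i 1 : Fin m → ℤ)).injOn)).subset
    intro x hx
    by_contra hcon
    rw [Set.mem_union, not_or] at hcon
    apply hx
    have h3 : a x = 0 := by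
      by_contra h; exact hcon.1 h
    have h4 : a (x + Pi.single i 1) = 0 := by
      by_contra h; exact hcon.2 h
    simp only
    rw [h3, h4, sub_zero, abs_zero]
  have h5 : ∀ i : Fin m, n1 (fun x => a (x + Pi.single i 1) - a x) =
      ENNReal.ofReal (∑' x : Fin m → ℤ, |a (x + Pi.single i 1) - a x|) := by
    intro i
    unfold n1
    rw [ENNReal.ofReal_tsum_of_nonneg (fun _ => abs_nonneg _) (hs i)]
  simp_rw [h5]
  rw [← ENNReal.ofReal_sum_of_nonneg (fun i _ => tsum_nonneg fun _ => abs_nonneg _),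
    ← Summable.tsum_finsetSum (fun i _ => hs i), ← ENNReal.ofReal_one]
  exact ENNReal.ofReal_le_ofReal h2

lemma rep_box {m : ℕ} {b : (Fin m → ℤ) → ℝ} (hb : b ∈ BoxBall m) :
    Rep b (ENNReal.ofReal (19 ^ m)) := by
  obtain ⟨N, l, u, c, h1, h2⟩ := hb
  have h3 := Rep.sum (Finset.univ : Finset (Fin N))
    (fun t x => c t * (if x ∈ Finset.Icc (l t) (u t) then 1 else 0))
    (fun t => ENNReal.ofReal |c t| *
      ENNReal.ofReal (19 ^ m * Real.sqrt (Finset.Icc (l t) (u t)).card))
    (fun t _ => (Rep.box (l t) (u t)).smul (c t))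
  refine Rep.congr (h3.mono ?_) h1
  have h4 : ∀ t, ENNReal.ofReal |c t| *
      ENNReal.ofReal (19 ^ m * Real.sqrt (Finset.Icc (l t) (u t)).card) =
      ENNReal.ofReal (19 ^ m * (|c t| * Real.sqrt (Finset.Icc (l t) (u t)).card)) := by
    intro t
    rw [← ENNReal.ofReal_mul (abs_nonneg _)]
    congr 1; ring
  simp_rw [h4]
  rw [← ENNReal.ofReal_sum_of_nonneg (fun t _ => by positivity), ← Finset.mul_sum]
  apply ENNReal.ofReal_le_ofReal
  calc _ ≤ (19 : ℝ) ^ m * 1 := by gcongr
    _ = _ := mul_one _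

/-- **The Komlós conjecture (in the linear discrepancy form) for functions on `ℤ^m` which are sums
of a function of total variation at most `1` and an element of the absolutely convex hull of the
`ℓ_2`-normalised indicator functions of boxes.** -/
theorem result (m : ℕ) (hm : 2 ≤ m) (n : ℕ) (a b : Fin n → (Fin m → ℤ) → ℝ)
    (ha : ∀ j, a j ∈ BVBall m) (hb : ∀ j, b j ∈ BoxBall m)
    (x0 : Fin n → ℝ) (hx0 : ∀ j, x0 j ∈ Set.Icc (-1 : ℝ) 1) :
    ∃ y : Fin n → ℝ, (∀ j, y j = 1 ∨ y j = -1) ∧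
      ∀ x : Fin m → ℤ, |∑ j, (y j - x0 j) * (a j x + b j x)| ≤ 2 * (6 + 19 ^ m) * 5 ^ m := by
  apply rounding (fun j x => a j x + b j x) (C := 6 + 19 ^ m) (by positivity) _ x0
    (fun j => abs_le.mpr (hx0 j))
  intro j
  rw [ENNReal.ofReal_add (by norm_num) (by positivity)]
  exact (rep_bv hm (ha j)).add (rep_box (hb j))

end Pool.Agent.Results.MP_c81d26_co.BoundedVariation
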